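import Pool.Agent.TH817.Z3.StmH
import Pool.Agent.H336R2.HD.H6pre
import Pool.Agent.H336R2.HD.A1
import Pool.Agent.H336R2.HD.A5

/-! Task H6 (second design, job 2318): non-vanishing of the determinant, from H3, H4, H5'. Port of
`Pool/Agent/W509/Z3/H6.lean`. -/

set_option autoImplicit false

open Polynomial Pool.Agent.H337R2

namespace Pool.Agent.TH740.Z3

open Pool.Agent.TH817.Z3

noncomputable section

/-- the test polynomials -/
def TP (p r l : ℕ) : ℚ[X] := (X + C (r : ℚ)) ^ l * OT p r 2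

lemma TP_natDegree (p r l : ℕ) (hr1 : 1 ≤ r) (hr2 : r ≤ p) (hl : l < 2) :
    (TP p r l).natDegree < 2 * p := by
  have h0 : ∀ k : ℕ, (X + C (k : ℚ) : ℚ[X]).natDegree ≤ 1 := fun k => (natDegree_X_add_C _).le
  have h1 : ((X + C (r : ℚ) : ℚ[X]) ^ l).natDegree ≤ l := by
    refine natDegree_pow_le.trans ?_
    have := h0 r
    nlinarith
  have h2 : (OT p r 2).natDegree ≤ 2 * (p - 1) := by
    unfold OT
    refine (natDegree_prod_le _ _).trans ?_
    have h3 : ∀ r' ∈ (Finset.Icc 1 p).erase r, ((X + C (r' : ℚ) : ℚ[X]) ^ 2).natDegree ≤ 2 := by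
      intro r' _
      refine natDegree_pow_le.trans ?_
      have := h0 r'
      nlinarith
    refine (Finset.sum_le_sum h3).trans ?_
    rw [Finset.sum_const, Finset.card_erase_of_mem, Nat.card_Icc, smul_eq_mul]
    · rw [mul_comm]
      exact Nat.mul_le_mul_left _ (by omega)
    · rw [Finset.mem_Icc]
      omega
  unfold TP
  refine (natDegree_mul_le).trans_lt ?_
  omega

lemma TP_mul (p r l l' : ℕ) : TP p r l * TP p r l' =
    (X + C (r : ℚ)) ^ (l + l') * OT p r 4 := by
  unfold TP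
  rw [pow_add]
  have h : OT p r 4 = OT p r 2 * OT p r 2 := by
    unfold OT
    rw [← Finset.prod_mul_distrib]
    refine Finset.prod_congr rfl fun r' _ => ?_
    rw [← pow_add]
  rw [h]
  ring

lemma norm_prod_one (p : ℕ) [Fact p.Prime] {ι : Type} [Fintype ι] (f : ι → ℚ)
    (hf : ∀ i, padicNorm p (f i) = 1) : padicNorm p (∏ i, f i) = 1 := by
  have h4 : padicNorm p (∏ i, f i) = ∏ i, padicNorm p (f i) := by
    exact map_prod (⟨⟨fun x => padicNorm p x, padicNorm.one⟩, fun x y => padicNorm.mul x y⟩ :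
      ℚ →* ℚ) f Finset.univ
  rw [h4]
  exact Finset.prod_eq_one fun i _ => hf i

lemma fin_int (F : ℕ → ℚ) (N : ℕ) :
    ∃ p2 : ℕ, ∀ e ∈ Finset.range N, ∀ p : ℕ, p2 ≤ p → p.Prime → padicNorm p (F e) ≤ 1 := by
  choose f hf using fun e : ℕ => Pool.Agent.H336R2.HD.H6_int (F e)
  refine ⟨(Finset.range N).sup f, fun e he p hp hpp => hf e p ?_ hpp⟩
  exact (Finset.le_sup (f := f) he).trans hp

lemma fin_int2 (F : Bool → ℕ → ℚ) (N : ℕ) :
    ∃ p2 : ℕ, ∀ (t : Bool), ∀ e ∈ Finset.range N, ∀ p : ℕ, p2 ≤ p → p.Prime →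
      padicNorm p (F t e) ≤ 1 := by
  obtain ⟨a, ha⟩ := fin_int (F false) N
  obtain ⟨b, hb⟩ := fin_int (F true) N
  refine ⟨a + b, fun t e he p hp hpp => ?_⟩
  cases t
  · exact ha e he p (by omega) hpp
  · exact hb e he p (by omega) hpp

lemma det_scale2 {α : Type} [Fintype α] [DecidableEq α] (c d : α → ℚ) (M : Matrix α α ℚ) :
    (Matrix.of fun a b => c a * d b * M a b).det = (∏ a, c a) * ((∏ a, d a) * M.det) := by
  have h1 : (Matrix.of fun a b => c a * d b * M a b) =
      Matrix.of fun a b => c a * (Matrix.of fun a b => d b * M a b) a b := by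
    ext a b
    simp only [Matrix.of_apply]
    ring
  rw [h1, Matrix.det_mul_column, Matrix.det_mul_row]

theorem H6_of (h3 : StH3) (h4 : StH4) (h5 : StH5') : StH6 := by
  obtain ⟨p1, hp1⟩ := h5
  obtain ⟨p2, hp2⟩ := fin_int2 Fm 3
  obtain ⟨p3, hp3⟩ := fin_int2 rm 3
  refine ⟨p1 + p2 + p3 + 100, fun p hp hpp hmod x => ?_⟩
  have : Fact p.Prime := ⟨hpp⟩
  have hp100 : 100 ≤ p := by omega
  have hp0 : (p : ℚ) ≠ 0 := by exact_mod_cast hpp.ne_zero
  -- choice of a and b
  have hab : ∃ a b : ℚ, padicNorm p a ≤ 1 ∧ padicNorm p b ≤ 1 ∧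
      (padicNorm p a = 1 ∨ padicNorm p b = 1) ∧ a * ((p : ℚ) ^ 3 * x) = b := by
    by_cases hy : padicNorm p ((p : ℚ) ^ 3 * x) ≤ 1
    · exact ⟨1, (p : ℚ) ^ 3 * x, by rw [padicNorm.one], hy, Or.inl padicNorm.one, one_mul _⟩
    · push Not at hy
      have hy0 : (p : ℚ) ^ 3 * x ≠ 0 := by
        intro h0
        rw [h0, padicNorm.zero] at hy
        linarith
      refine ⟨1 / ((p : ℚ) ^ 3 * x), 1, ?_, by rw [padicNorm.one], Or.inr padicNorm.one, ?_⟩
      · rw [padicNorm.div, padicNorm.one, div_le_one (by linarith)]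
        exact hy.le
      · rw [one_div, inv_mul_cancel₀ hy0]
  obtain ⟨a, b, ha, hb, hab1, hab2⟩ := hab
  -- choose the units
  have hw : ∀ r : Fin p, ∃ w : ℚ, padicNorm p w = 1 ∧ ∀ e : ℕ, e ≤ 2 →
      padicNorm p (a * ((p : ℚ) ^ (1 - (e : ℤ)) *
        NL p x ((X + C ((r.1 + 1 : ℕ) : ℚ)) ^ e * OT p (r.1 + 1) 4)) -
        w * (a * Fm (typ p (r.1 + 1)) e + b * rm (typ p (r.1 + 1)) e)) ≤ (p : ℚ)⁻¹ := by
    intro r
    have hr := r.2
    obtain ⟨w, hw1, hw2⟩ := h3 hp100 (r.1 + 1) (by omega) (by omega)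
    exact ⟨w, hw1, fun e he => hw2 x a b ha hb hab2 e he⟩
  choose w hw1 hw2 using hw
  -- the Gram matrix
  set Q : Fin 2 × Fin p → ℚ[X] := fun i => TP p (i.2.1 + 1) i.1.1 with hQ
  set G : Matrix (Fin 2 × Fin p) (Fin 2 × Fin p) ℚ :=
    Matrix.of fun i j => NL p x (Q i * Q j) with hG
  have key : G.det ≠ 0 := by
    set c : Fin 2 × Fin p → ℚ := fun i => a * (p : ℚ) ^ (1 - (i.1.1 : ℤ)) with hc
    set d : Fin 2 × Fin p → ℚ := fun i => (p : ℚ) ^ (-(i.1.1 : ℤ)) with hd
    set M : Matrix (Fin 2 × Fin p) (Fin 2 × Fin p) ℚ :=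
      Matrix.of fun i j => c i * d j * G i j with hM
    set Bl : Fin p → Matrix (Fin 2) (Fin 2) ℚ := fun r =>
      Matrix.of fun l l' => w r * (a * Fm (typ p (r.1 + 1)) (l.1 + l'.1) +
        b * rm (typ p (r.1 + 1)) (l.1 + l'.1)) with hBl
    have hcc : ∀ i j : Fin 2 × Fin p, c i * d j =
        a * (p : ℚ) ^ (1 - (i.1.1 : ℤ) - (j.1.1 : ℤ)) := by
      intro i j
      simp only [hc, hd]
      rw [mul_assoc, ← zpow_add₀ hp0]
      congr 2
    have hM0 : M.det ≠ 0 := by
      apply Pool.Agent.H336R2.HD.A6_det_congr p M (Matrix.blockDiagonal Bl)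
      · intro i j
        rw [Matrix.blockDiagonal_apply]
        split_ifs with hij
        · simp only [hBl, Matrix.of_apply]
          have hi := i.1.2
          have hj := j.1.2
          have k1 : padicNorm p (Fm (typ p (i.2.1 + 1)) (i.1.1 + j.1.1)) ≤ 1 :=
            hp2 _ _ (Finset.mem_range.2 (by omega)) p (by omega) hpp
          have k2 : padicNorm p (rm (typ p (i.2.1 + 1)) (i.1.1 + j.1.1)) ≤ 1 :=
            hp3 _ _ (Finset.mem_range.2 (by omega)) p (by omega) hpp
          rw [padicNorm.mul, hw1, one_mul]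
          refine (padicNorm.nonarchimedean).trans (max_le ?_ ?_)
          · rw [padicNorm.mul]
            exact mul_le_one₀ ha (padicNorm.nonneg _) k1
          · rw [padicNorm.mul]
            exact mul_le_one₀ hb (padicNorm.nonneg _) k2
        · simp
      · intro i j
        rw [Matrix.blockDiagonal_apply]
        have hi := i.1.2
        have hj := j.1.2
        have hi2 := i.2.2
        have hj2 := j.2.2
        have hMij : M i j = a * ((p : ℚ) ^ (1 - (i.1.1 : ℤ) - (j.1.1 : ℤ)) *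
            NL p x (TP p (i.2.1 + 1) i.1.1 * TP p (j.2.1 + 1) j.1.1)) := by
          simp only [hM, hG, Matrix.of_apply, hQ]
          rw [hcc, mul_assoc]
        split_ifs with hij
        · rw [hMij, ← hij, TP_mul]
          have k1 := hw2 i.2 (i.1.1 + j.1.1) (by omega)
          have k2 : (1 - ((i.1.1 + j.1.1 : ℕ) : ℤ)) = 1 - (i.1.1 : ℤ) - (j.1.1 : ℤ) := by
            push_cast
            ring
          rw [k2] at k1
          simp only [hBl, Matrix.of_apply]
          exact k1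
        · rw [hMij, sub_zero]
          refine h4 hp100 x a b ha hb hab2 (i.2.1 + 1) (j.2.1 + 1) i.1.1 j.1.1 (by omega)
            (by omega) (by omega) (by omega) ?_ hi hj
          intro k1
          apply hij
          ext
          omega
      · rw [Matrix.det_blockDiagonal]
        apply norm_prod_one p
        intro r
        have k1 : (Bl r).det = w r * w r * ((a * Fm (typ p (r.1 + 1)) 0 + b * rm (typ p (r.1 + 1)) 0) *
            (a * Fm (typ p (r.1 + 1)) 2 + b * rm (typ p (r.1 + 1)) 2) -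
            (a * Fm (typ p (r.1 + 1)) 1 + b * rm (typ p (r.1 + 1)) 1) ^ 2) := by
          rw [Matrix.det_fin_two]
          simp only [hBl, Matrix.of_apply, Fin.val_zero, Fin.val_one, Nat.add_zero, Nat.zero_add,
            Nat.reduceAdd]
          ring
        rw [k1, padicNorm.mul, padicNorm.mul, hw1,
          hp1 p (by omega) hpp hmod (typ p (r.1 + 1)) a b ha hb hab1]
        norm_num
    intro h0
    apply hM0
    rw [hM, det_scale2, h0, mul_zero, mul_zero]
  -- conclusion
  have hcard : Fintype.card (Fin 2 × Fin p) = Fintype.card (Fin (2 * p)) := by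
    simp only [Fintype.card_prod, Fintype.card_fin]
  obtain ⟨e⟩ := Fintype.card_eq.1 hcard
  unfold DET
  apply Pool.Agent.H336R2.HD.A2_gram_ne (NL p x) (2 * p) e Q
  · intro i
    have hi := i.1.2
    have hi2 := i.2.2
    exact TP_natDegree p _ _ (by omega) (by omega) hi
  · exact key

end

end Pool.Agent.TH740.Z3
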