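import Pool.Agent.TH817.Z3.StmH

/-! Task H5 (second design, job 2317): the local quadratic forms. Port of `Pool/Agent/W337/Z3/H5.lean`. -/

set_option autoImplicit false

open Polynomial Pool.Agent.H337R2 Pool.Agent.TH817.Z3

namespace Pool.Agent.TH740.Z3.L5

/-- product of pairs of first two coefficients -/
def dm (p q : ℚ × ℚ) : ℚ × ℚ := (p.1 * q.1, p.1 * q.2 + p.2 * q.1)

def Is (f : PowerSeries ℚ) (p : ℚ × ℚ) : Prop :=
  PowerSeries.coeff 0 f = p.1 ∧ PowerSeries.coeff 1 f = p.2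

lemma Is.mul {f g : PowerSeries ℚ} {p q : ℚ × ℚ} (hf : Is f p) (hg : Is g q) :
    Is (f * g) (dm p q) := by
  obtain ⟨h1, h2⟩ := hf
  obtain ⟨h3, h4⟩ := hg
  refine ⟨?_, ?_⟩
  · rw [PowerSeries.coeff_mul]
    simp [dm, h1, h3]
  · rw [PowerSeries.coeff_mul]
    have : Finset.HasAntidiagonal.antidiagonal (1 : ℕ) = {(0, 1), (1, 0)} := rfl
    rw [this, Finset.sum_insert (by decide), Finset.sum_singleton]
    simp only [dm]
    rw [h1, h2, h3, h4]

lemma Is.one : Is 1 (1, 0) := by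
  refine ⟨?_, ?_⟩
  · simp
  · simp [PowerSeries.coeff_one]

lemma Is.lin (u : ℚ) : Is (PowerSeries.X + PowerSeries.C u) (u, 1) := by
  refine ⟨?_, ?_⟩
  · simp
  · simp

lemma Is.iv (u : ℚ) : Is (iv u) (1 / u, -(1 / u ^ 2)) := by
  refine ⟨?_, ?_⟩
  · simp [Pool.Agent.H337R2.iv]
  · simp [Pool.Agent.H337R2.iv, neg_div]

lemma Is.sq {f : PowerSeries ℚ} {p : ℚ × ℚ} (hf : Is f p) : Is (f ^ 2) (dm p p) := by
  rw [pow_two]
  exact hf.mul hf

def dpow (p : ℚ × ℚ) : ℕ → ℚ × ℚ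
  | 0 => (1, 0)
  | n + 1 => dm (dpow p n) p

lemma Is.pow {f : PowerSeries ℚ} {p : ℚ × ℚ} (hf : Is f p) (n : ℕ) : Is (f ^ n) (dpow p n) := by
  induction n with
  | zero => rw [pow_zero]; exact Is.one
  | succ n ih => rw [pow_succ]; exact ih.mul hf

def dprod (P : ℕ → ℚ × ℚ) : List ℕ → ℚ × ℚ
  | [] => (1, 0)
  | a :: l => dm (P a) (dprod P l)

lemma Is.list (F : ℕ → PowerSeries ℚ) (P : ℕ → ℚ × ℚ) (h : ∀ a, Is (F a) (P a)) (l : List ℕ) :
    Is (l.map F).prod (dprod P l) := by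
  induction l with
  | nil => exact Is.one
  | cons a l ih =>
    rw [List.map_cons, List.prod_cons]
    exact (h a).mul ih

def z1 (b : Bool) : List ℕ := if b then [0, 1, 2] else [1, 2]
def z2 (b : Bool) : List ℕ := if b then [1, 2] else [1, 2, 3]
def q1 (b : Bool) : List ℕ := if b then [3, 4, 5, 6, 7] else [4, 5, 6, 7]
def q2 (b : Bool) : List ℕ := if b then [4, 5, 6, 7] else [4, 5, 6, 7, 8]

/-- the first two coefficients of `ser b j e` -/
def cs (b : Bool) (j e : ℕ) : ℚ × ℚ :=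
  dm (dm (dm (dm (dprod (fun a => ((a : ℚ) - j, 1)) (z1 b))
    (dprod (fun a => ((a : ℚ) - j, 1)) (z2 b)))
    (dprod (fun c => (1 / ((c : ℚ) - j), -(1 / ((c : ℚ) - j) ^ 2)))
      ((q1 b).filter (fun c => c ≠ j))))
    (dprod (fun c => (1 / ((c : ℚ) - j), -(1 / ((c : ℚ) - j) ^ 2)))
      ((q2 b).filter (fun c => c ≠ j))))
    (dpow (-(j : ℚ), 1) e)

lemma Z1_eq (b : Bool) : Z1 b = (z1 b).toFinset := by cases b <;> decide
lemma Z2_eq (b : Bool) : Z2 b = (z2 b).toFinset := by cases b <;> decide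
lemma P1_eq (b : Bool) : P1 b = (q1 b).toFinset := by cases b <;> decide
lemma P2_eq (b : Bool) : P2 b = (q2 b).toFinset := by cases b <;> decide
lemma z1_nd (b : Bool) : (z1 b).Nodup := by cases b <;> decide
lemma z2_nd (b : Bool) : (z2 b).Nodup := by cases b <;> decide
lemma q1_nd (b : Bool) : (q1 b).Nodup := by cases b <;> decide
lemma q2_nd (b : Bool) : (q2 b).Nodup := by cases b <;> decide

lemma erase_eq (l : List ℕ) (j : ℕ) : l.toFinset.erase j = (l.filter (fun b => b ≠ j)).toFinset := by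
  ext b
  simp only [Finset.mem_erase, List.mem_toFinset, List.mem_filter, decide_eq_true_eq]
  exact and_comm

lemma ser_is (b : Bool) (j e : ℕ) : Is (ser b j e) (cs b j e) := by
  unfold ser cs
  refine Is.mul (Is.mul (Is.mul (Is.mul ?_ ?_) ?_) ?_) ?_
  · rw [Z1_eq, List.prod_toFinset _ (z1_nd b)]
    exact Is.list _ _ (fun a => Is.lin _) _
  · rw [Z2_eq, List.prod_toFinset _ (z2_nd b)]
    exact Is.list _ _ (fun a => Is.lin _) _
  · rw [P1_eq, erase_eq, List.prod_toFinset _ ((q1_nd b).filter _)]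
    exact Is.list _ _ (fun a => Is.iv _) _
  · rw [P2_eq, erase_eq, List.prod_toFinset _ ((q2_nd b).filter _)]
    exact Is.list _ _ (fun a => Is.iv _) _
  · exact (Is.lin _).pow e

def H (e m : ℕ) : ℚ := ((List.range m).map fun l : ℕ => 1 / ((l : ℚ) + 1) ^ e).sum

lemma hs_eq (e m : ℕ) : hs e m = H e m := by
  unfold hs H
  rw [← List.sum_toFinset _ (List.nodup_range)]
  congr 1
  ext a
  simp

def cFm (b : Bool) (e : ℕ) : ℚ := -((([4, 5, 6, 7] : List ℕ).map fun j =>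
  2 * (cs b j e).1 * H 3 (j - 3) + (cs b j e).2 * H 2 (j - 3)).sum +
    if b then 0 else (cs b 8 e).1 * H 2 5)

def cRm (b : Bool) (e : ℕ) : ℚ := 2 * (([4, 5, 6, 7] : List ℕ).map fun j => (cs b j e).1).sum

lemma Fm_eq (b : Bool) (e : ℕ) : Fm b e = cFm b e := by
  unfold Fm cFm
  have h1 : (Finset.Icc 4 7 : Finset ℕ) = [4, 5, 6, 7].toFinset := by decide
  rw [h1, List.sum_toFinset _ (by decide), (ser_is b 8 e).1, hs_eq]
  congr 4
  funext j
  rw [(ser_is b j e).1, (ser_is b j e).2, hs_eq, hs_eq]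

lemma rm_eq (b : Bool) (e : ℕ) : rm b e = cRm b e := by
  unfold rm cRm
  have h1 : (Finset.Icc 4 7 : Finset ℕ) = [4, 5, 6, 7].toFinset := by decide
  rw [h1, List.sum_toFinset _ (by decide)]
  congr 3
  funext j
  rw [(ser_is b j e).1]

lemma cF0 : cFm false 0 = 7595461 / 11520 := by decide +kernel
lemma cF1 : cFm false 1 = -5957971 / 1440 := by decide +kernel
lemma cF2 : cFm false 2 = 18874409 / 720 := by decide +kernel
lemma cR0 : cRm false 0 = -1097 / 2 := by decide +kernel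
lemma cR1 : cRm false 1 = 3442 := by decide +kernel
lemma cR2 : cRm false 2 = -21808 := by decide +kernel
lemma dF0 : cFm true 0 = -5612471 / 6912 := by decide +kernel
lemma dF1 : cFm true 1 = 10924447 / 2304 := by decide +kernel
lemma dF2 : cFm true 2 = -64573189 / 2304 := by decide +kernel
lemma dR0 : cRm true 0 = 1351 / 2 := by decide +kernel
lemma dR1 : cRm true 1 = -7889 / 2 := by decide +kernel
lemma dR2 : cRm true 2 = 46631 / 2 := by decide +kernel

/-- the factor -/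
def kk (t : Bool) : ℚ := if t then 1 / 995328 else 1 / 1658880

/-- the explicit form -/
lemma form_eq (t : Bool) (a b : ℚ) :
    (a * Fm t 0 + b * rm t 0) * (a * Fm t 2 + b * rm t 2) - (a * Fm t 1 + b * rm t 1) ^ 2 =
    kk t * (274032742037 * a ^ 2 - 455939706240 * a * b + 189649797120 * b ^ 2) := by
  cases t
  · rw [Fm_eq, Fm_eq, Fm_eq, rm_eq, rm_eq, rm_eq, cF0, cF1, cF2, cR0, cR1, cR2]
    simp only [kk, Bool.false_eq_true, if_false]
    ring
  · rw [Fm_eq, Fm_eq, Fm_eq, rm_eq, rm_eq, rm_eq, dF0, dF1, dF2, dR0, dR1, dR2]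
    simp only [kk, if_true]
    ring

lemma kk_ne (t : Bool) : kk t ≠ 0 := by
  cases t <;> simp [kk]

theorem H5 : StH5 := fun t => ⟨kk t, kk_ne t, form_eq t⟩

lemma ns2 : ¬ IsSquare ((2 : ℕ) : ZMod 5) := by decide

lemma one17 : ((1 : ℕ) : ZMod 17) = 1 * 1 := by decide

/-- the integral form has no nontrivial zero modulo `p` -/
lemma int_form {p : ℕ} [hp : Fact p.Prime] (hp0 : 10 ^ 30 ≤ p) (hmod : p % 340 = 137) (m n : ℤ)
    (hmn : ¬ ((p : ℤ) ∣ m ∧ (p : ℤ) ∣ n)) :
    ¬ (p : ℤ) ∣ 274032742037 * m ^ 2 - 455939706240 * m * n + 189649797120 * n ^ 2 := by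
  intro hdvd
  have h5 : Fact (Nat.Prime 5) := ⟨by norm_num⟩
  have h17 : Fact (Nat.Prime 17) := ⟨by norm_num⟩
  have hsq5 : ¬ IsSquare ((5 : ℕ) : ZMod p) := by
    rw [ZMod.exists_sq_eq_prime_iff_of_mod_four_eq_one (p := p) (q := 5) (by omega) (by norm_num)]
    have h1 : ((p : ℕ) : ZMod 5) = ((2 : ℕ) : ZMod 5) := by
      rw [ZMod.natCast_eq_natCast_iff]
      unfold Nat.ModEq
      omega
    rw [h1]
    exact ns2
  have hsq17 : IsSquare ((17 : ℕ) : ZMod p) := by
    rw [ZMod.exists_sq_eq_prime_iff_of_mod_four_eq_one (p := p) (q := 17) (by omega) (by norm_num)]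
    have h1 : ((p : ℕ) : ZMod 17) = ((1 : ℕ) : ZMod 17) := by
      rw [ZMod.natCast_eq_natCast_iff]
      unfold Nat.ModEq
      omega
    rw [h1]
    exact ⟨1, one17⟩
  have hunit : ∀ c : ℕ, 0 < c → c < 10 ^ 30 → ((c : ℕ) : ZMod p) ≠ 0 := by
    intro c hc0 hc h0
    rw [ZMod.natCast_eq_zero_iff] at h0
    have := Nat.le_of_dvd hc0 h0
    omega
  have hsq : ¬ ∃ z w : ZMod p, w ≠ 0 ∧ z ^ 2 = 85 * w ^ 2 := by
    rintro ⟨z, w, hw, hzw⟩
    apply hsq5
    obtain ⟨v, hv⟩ := hsq17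
    have hv0 : v ≠ 0 := by
      rintro rfl
      exact hunit 17 (by norm_num) (by norm_num) (by rw [hv]; ring)
    refine ⟨z / (v * w), ?_⟩
    rw [div_mul_div_comm, eq_div_iff (mul_ne_zero (mul_ne_zero hv0 hw) (mul_ne_zero hv0 hw))]
    push_cast at hv ⊢
    linear_combination (-(5 : ZMod p) * w ^ 2) * hv - hzw
  have hz := (ZMod.intCast_zmod_eq_zero_iff_dvd _ p).2 hdvd
  push_cast at hz
  set x : ZMod p := (m : ZMod p) with hx
  set y : ZMod p := (n : ZMod p) with hy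
  have hkey : (2 * 274032742037 * x - 455939706240 * y) ^ 2 =
      85 * (1152 * y) ^ 2 := by
    linear_combination (4 * 274032742037 : ZMod p) * hz
  have hy0 : y = 0 := by
    by_contra hy0
    apply hsq
    have hD : (1152 : ZMod p) * y ≠ 0 := by
      apply mul_ne_zero _ hy0
      have := hunit 1152 (by norm_num) (by norm_num)
      exact_mod_cast this
    exact ⟨_, _, hD, hkey⟩
  have hx0 : x = 0 := by
    rw [hy0] at hkey
    have h1 : (2 * 274032742037 * x : ZMod p) ^ 2 = 0 := by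
      linear_combination hkey
    have h2 := pow_eq_zero_iff (two_ne_zero) |>.1 h1
    have h3 : ((2 * 274032742037 : ℕ) : ZMod p) ≠ 0 := hunit _ (by norm_num) (by norm_num)
    rcases mul_eq_zero.1 h2 with h4 | h4
    · refine absurd ?_ h3
      have e5 : ((2 * 274032742037 : ℕ) : ZMod p) = 2 * 274032742037 := by
        rw [Nat.cast_mul]
        rfl
      rw [e5]
      exact h4
    · exact h4
  apply hmn
  exact ⟨(ZMod.intCast_zmod_eq_zero_iff_dvd _ p).1 hx0, (ZMod.intCast_zmod_eq_zero_iff_dvd _ p).1 hy0⟩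

lemma norm_kk {p : ℕ} [hp : Fact p.Prime] (hp0 : 10 ^ 30 ≤ p) (t : Bool) :
    padicNorm p (kk t) = 1 := by
  have h0 : ((10 ^ 30 : ℕ) : ℤ) ≤ p := by exact_mod_cast hp0
  have h1 : ∀ c : ℤ, 0 < c → c < 10 ^ 30 → padicNorm p ((c : ℤ) : ℚ) = 1 := by
    intro c hc0 hc
    rw [padicNorm.int_eq_one_iff]
    intro hd
    have := Int.le_of_dvd hc0 hd
    push_cast at h0
    omega
  have h2 : padicNorm p (995328 : ℚ) = 1 := by
    have := h1 995328 (by norm_num) (by norm_num)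
    exact_mod_cast this
  have h3 : padicNorm p (1658880 : ℚ) = 1 := by
    have := h1 1658880 (by norm_num) (by norm_num)
    exact_mod_cast this
  cases t
  · simp only [kk, Bool.false_eq_true, if_false]
    rw [padicNorm.div, padicNorm.one, h3, div_one]
  · simp only [kk, if_true]
    rw [padicNorm.div, padicNorm.one, h2, div_one]

lemma den_not_dvd {p : ℕ} [hp : Fact p.Prime] {a : ℚ} (h : padicNorm p a ≤ 1) :
    ¬ (p : ℤ) ∣ (a.den : ℤ) := by
  intro hd
  have hpp : (p : ℤ) ∣ a.num → False := by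
    intro hn
    have h1 : p ∣ a.num.natAbs := Int.natCast_dvd.1 hn
    have h2 : p ∣ a.den := by exact_mod_cast hd
    have h3 := Nat.dvd_gcd h1 h2
    have h4 : a.num.natAbs.gcd a.den = 1 := a.reduced
    rw [h4] at h3
    exact hp.out.one_lt.ne' (Nat.dvd_one.1 h3)
  have hnum : padicNorm p (a.num : ℚ) = 1 := padicNorm.int_eq_one_iff _ |>.2 hpp
  have hden : padicNorm p ((a.den : ℤ) : ℚ) < 1 := (padicNorm.int_lt_one_iff _).2 hd
  have hden0 : (a.den : ℚ) ≠ 0 := by exact_mod_cast a.den_nz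
  have h5 : (a.num : ℚ) = a * ((a.den : ℤ) : ℚ) := by
    rw [Int.cast_natCast]
    exact (Rat.mul_den_eq_num a).symm
  rw [h5, padicNorm.mul] at hnum
  have h6 : padicNorm p a * padicNorm p ((a.den : ℤ) : ℚ) < 1 := by
    calc padicNorm p a * padicNorm p ((a.den : ℤ) : ℚ) ≤ 1 * padicNorm p ((a.den : ℤ) : ℚ) :=
          mul_le_mul_of_nonneg_right h (padicNorm.nonneg _)
      _ < 1 := by rw [one_mul]; exact hden
  exact h6.ne hnum

theorem H5' : StH5' := by
  refine ⟨10 ^ 30, fun p hp0 hpp hmod t a b ha hb hab => ?_⟩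
  have hp : Fact p.Prime := ⟨hpp⟩
  rw [form_eq, padicNorm.mul]
  have hda := den_not_dvd ha
  have hdb := den_not_dvd hb
  have hda0 : (a.den : ℚ) ≠ 0 := by exact_mod_cast a.den_nz
  have hdb0 : (b.den : ℚ) ≠ 0 := by exact_mod_cast b.den_nz
  have hpz : Prime (p : ℤ) := Nat.prime_iff_prime_int.1 hpp
  rw [norm_kk hp0 t, one_mul]
  -- integers
  set d : ℤ := (a.den : ℤ) * b.den with hd
  set m : ℤ := a.num * b.den with hm
  set n : ℤ := b.num * a.den with hn
  have hdp : padicNorm p (d : ℚ) = 1 := by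
    rw [padicNorm.int_eq_one_iff]
    intro h
    rcases hpz.dvd_or_dvd h with h1 | h1
    · exact hda h1
    · exact hdb h1
  have ham : a * d = m := by
    rw [hd, hm]
    push_cast
    rw [← mul_assoc, Rat.mul_den_eq_num]
  have hbn : b * d = n := by
    rw [hd, hn]
    push_cast
    rw [mul_comm (a.den : ℚ), ← mul_assoc, Rat.mul_den_eq_num]
  have hmn : ¬ ((p : ℤ) ∣ m ∧ (p : ℤ) ∣ n) := by
    rintro ⟨h1, h2⟩
    have h3 : padicNorm p (m : ℚ) < 1 := (padicNorm.int_lt_one_iff _).2 h1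
    have h4 : padicNorm p (n : ℚ) < 1 := (padicNorm.int_lt_one_iff _).2 h2
    rw [← ham, padicNorm.mul, hdp, mul_one] at h3
    rw [← hbn, padicNorm.mul, hdp, mul_one] at h4
    rcases hab with h5 | h5
    · exact h3.ne h5
    · exact h4.ne h5
  have hI := int_form hp0 hmod m n hmn
  rw [← padicNorm.int_eq_one_iff] at hI
  have e : ((274032742037 * m ^ 2 - 455939706240 * m * n +
      189649797120 * n ^ 2 : ℤ) : ℚ) =
      (274032742037 * a ^ 2 - 455939706240 * a * b +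
      189649797120 * b ^ 2) * ((d : ℚ) * d) := by
    push_cast
    rw [← ham, ← hbn]
    ring
  rw [e, padicNorm.mul, padicNorm.mul, hdp, mul_one, mul_one] at hI
  exact hI

end Pool.Agent.TH740.Z3.L5
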